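import Pool.Agent.helper14.SCO.Spec

/-!
# Row sco:SGM (MP_bfc607_gt): one segment of case B
-/

set_option autoImplicit false

namespace Pool.Agent.SCO

open Pool.Agent.Scheepers Cardinal

theorem SGM_reg {l l' : ℕ} (h : l ≤ l') : Reg l ⊆ Reg l' := by
  rintro w ⟨e, he, hw⟩
  exact ⟨e, lt_of_lt_of_le he h, hw⟩

/-- extension of a finite sequence -/
def SGM_ext (n : ℕ) (g : Fin n → Bool) : ℕ → Bool := fun e => if h : e < n then g ⟨e, h⟩ else false

theorem SGM (_h1 : RFI_stmt) (h2 : LRG_stmt) : SGM_stmt := by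
  intro p J hL t ht O hO hD m y w1 hJm
  have haJm : p.a J ≤ p.a m := p.mono.monotone hJm
  have hz : ∀ g : Fin (p.a J) → Bool,
      cat (p.a J) (SGM_ext (p.a J) g) (cat (p.a m) y (dlt t)) ∈ O := by
    intro g
    apply hD
    refine ⟨t, p.a m, fun e he => ?_⟩
    unfold cat
    rw [if_neg (by omega), if_neg (by omega)]
  choose b hb using fun g => exists_cyl hO (hz g)
  obtain ⟨e1, he1, he1w⟩ := exists_pos_ge w1 (p.a m)
  let B := Finset.univ.sup b
  have hB : ∀ g, b g ≤ B := fun g => Finset.le_sup (f := b) (Finset.mem_univ g)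
  let m' := max (m + 1) (max B (e1 + 1))
  have hm1 : m + 1 ≤ m' := le_max_left _ _
  have hmB : B ≤ m' := (le_max_left _ _).trans (le_max_right _ _)
  have hme : e1 + 1 ≤ m' := (le_max_right _ _).trans (le_max_right _ _)
  have hid : m' ≤ p.a m' := p.mono.id_le m'
  have hamm : p.a m ≤ p.a m' := p.mono.monotone (by omega)
  refine ⟨m', by omega, ⟨e1, he1, by omega, he1w⟩, ?_⟩
  intro l w hl hw hw'
  have haml : p.a m' ≤ p.a l := p.mono.monotone (by omega)
  have hLg := h2 p m' l hl (fun j hj => hL j (by omega))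
  obtain ⟨-, hex⟩ := hLg t (ht.trans (SGM_reg (by omega)))
  obtain ⟨u, hu, hP1, hP2, hP3⟩ := hex w hw hw'
  obtain ⟨y', hy'⟩ : ∃ y' : ℕ → Bool, y' = cat (p.a m') (cat (p.a m) y (dlt t)) u := ⟨_, rfl⟩
  have e1' : ∀ e, e < p.a m → y' e = y e := by
    intro e he
    rw [hy']
    unfold cat
    rw [if_pos (by omega), if_pos he]
  have e2' : ∀ e, p.a m ≤ e → e < p.a m' → y' e = dlt t e := by
    intro e he he'
    rw [hy']
    unfold cat
    rw [if_pos he', if_neg (by omega)]
  have e3' : ∀ e, p.a m' ≤ e → y' e = u e := by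
    intro e he
    rw [hy']
    unfold cat
    rw [if_neg (by omega)]
  refine ⟨y', e1', e2', ⟨?_, ?_, ?_⟩, ?_, ?_⟩
  · intro e he he' hr
    rw [e3' e he]
    exact hP1 e he he' hr
  · intro e he he' hr
    rw [e3' e he]
    exact hP2 e he he' hr
  · intro w' h3 h4 h5
    obtain ⟨e, he, he', hp, hue⟩ := hP3 w' h3 h4 h5
    exact ⟨e, he, he', hp, by rw [e3' e he]; exact hue⟩
  · intro j hj hjl
    by_cases hjm : j < m'
    · have h5 : dlt t ∈ p.A j :=
        (hL j (by omega) t (ht.trans (SGM_reg (p.mono.monotone (by omega))))).1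
      refine p.loc j (dlt t) y' (fun e he he' => ?_) h5
      have h6 : p.a m ≤ p.a j := p.mono.monotone hj
      have h7 : p.a (j + 1) ≤ p.a m' := p.mono.monotone (by omega)
      exact (e2' e (by omega) (by omega)).symm
    · have h6 : p.a m' ≤ p.a j := p.mono.monotone (by omega)
      have h7 : p.a (j + 1) ≤ p.a l := p.mono.monotone (by omega)
      refine p.loc j u y' (fun e he he' => ?_) (hu j h6 h7)
      exact (e3' e (by omega)).symm
  · intro v hv
    refine hb (fun i => v i) v ?_
    intro e he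
    have h8 : e < p.a m' := lt_of_lt_of_le he ((hB _).trans (hmB.trans hid))
    by_cases h9 : e < p.a J
    · unfold cat SGM_ext
      rw [if_pos h9, dif_pos h9]
    · unfold cat
      rw [if_neg h9, hv e (by omega) (by omega)]
      by_cases h10 : e < p.a m
      · rw [if_pos h10, e1' e h10]
      · rw [if_neg h10, e2' e (by omega) h8]

end Pool.Agent.SCO
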